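import Pool.Agent.X86.SG.Main

set_option autoImplicit false

open Set
open Pool.Agent.X86.SG

namespace Pool.Agent.Results.MP_035d7c_an.FullDimension

/-- Affirmative answer to Q1: for distinct `α₁, α₂ ∈ (0,1]` and `a_n = (n^{-α₁}, n^{-α₂})`, if
`S(a_n) = ℝ²` then `dim E(L) = 1` for every `L ∈ ℝ²`. More generally, for all `d` and all
exponents `α_1, …, α_d > 0`, if `a_n = (n^{-α_1}, …, n^{-α_d})` satisfies `S(a_n) = ℝ^d`, then
`dim E(L) = 1` for every `L ∈ ℝ^d`. -/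
theorem result :
    (∀ α₁ α₂ : ℝ, α₁ ∈ Ioc (0 : ℝ) 1 → α₂ ∈ Ioc (0 : ℝ) 1 → α₁ ≠ α₂ →
      S ![α₁, α₂] = univ → ∀ L : Fin 2 → ℝ, dimH (E ![α₁, α₂] L) = 1) ∧
    (∀ (d : ℕ) (α : Fin d → ℝ), (∀ c, 0 < α c) → S α = univ →
      ∀ L : Fin d → ℝ, dimH (E α L) = 1) := by
  refine ⟨fun α₁ α₂ h1 h2 _ hS L => ?_, fun d α hα hS L => dim_eq_one hα hS L⟩
  apply dim_eq_one _ hS L
  intro c
  fin_cases c
  · exact h1.1
  · exact h2.1

end Pool.Agent.Results.MP_035d7c_an.FullDimension
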